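import Mathlib
import Pool.Agent.Results.MP_0e87b2_co.FixedCodegree

/-!
# MP_329cea_co : the restricted sumset assertion fails for all set sizes

The assertion `(∗)` with `n₀ = 1` is false for every `β ∈ (0,1)` (for `β ≥ 1` it is vacuous), and it
fails for every value `t = n - d ≥ 4` (it is known for `t ≤ 3`), in `ℤ_p` for all large primes `p`,
even if the set `B'` is allowed to be all of `A`.
-/

namespace Pool.Agent.Results.MP_329cea_co.AllSizesFail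

open Finset

/-- The `F`-restricted sum `A +_F B' = {a + b : a ∈ A, b ∈ B', (a,b) ∉ F}`. -/
def rsum {p : ℕ} (A B' : Finset (ZMod p)) (F : Finset (ZMod p × ZMod p)) : Finset (ZMod p) :=
  ((A ×ˢ B') \ F).image (fun x => x.1 + x.2)

/-- `d(F) ≤ d`: at most `d` pairs of `F` share a given first, or a given second, coordinate. -/
def MaxDegLe {p : ℕ} (F : Finset (ZMod p × ZMod p)) (d : ℕ) : Prop :=
  (∀ a : ZMod p, (F.filter (fun x => x.1 = a)).card ≤ d) ∧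
    ∀ b : ZMod p, (F.filter (fun x => x.2 = b)).card ≤ d

/-- The assertion `(∗)` with `n₀ = 1`, for a given `β`. -/
def StarOne (β : ℝ) : Prop :=
  ∃ c : ℕ, ∀ p : ℕ, p.Prime → ∀ (A : Finset (ZMod p)) (F : Finset (ZMod p × ZMod p)) (d : ℕ),
    1 ≤ A.card → (A.card : ℝ) < (1 - β) * (p : ℝ) / 2 → F ⊆ A ×ˢ A → MaxDegLe F d →
      ∃ B' : Finset (ZMod p), B' ⊆ A ∧ B'.card ≤ c ∧
        2 * (A.card : ℤ) - 2 * (d : ℤ) - 1 ≤ ((rsum A B' F).card : ℤ)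

/-- **Main result** (MP_329cea_co, negative answer to Q1).
(1) It is not true that `(∗)` with `n₀ = 1` holds for every `β > 0`; in fact it fails for every
`β ∈ (0,1)`.
(2) More precisely, for every `β ∈ (0,1)` and every `t ≥ 4`, for all large primes `p` there are
`A ⊆ ℤ_p` with `t ≤ |A| = n < (1-β)p/2` and `F ⊆ A × A` with `d(F) ≤ d = n - t` such that
`|A +_F B'| ≤ 2n - 2d - 2` for every `B' ⊆ A`. -/
theorem result :
    (¬ ∀ β : ℝ, 0 < β → StarOne β) ∧ (∀ β : ℝ, 0 < β → β < 1 → ¬ StarOne β) ∧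
    ∀ β : ℝ, 0 < β → β < 1 → ∀ t : ℕ, 4 ≤ t → ∃ P₀ : ℕ, ∀ p : ℕ, p.Prime → P₀ ≤ p →
      ∃ (A : Finset (ZMod p)) (F : Finset (ZMod p × ZMod p)) (d : ℕ),
        t ≤ A.card ∧ (A.card : ℝ) < (1 - β) * (p : ℝ) / 2 ∧ F ⊆ A ×ˢ A ∧ MaxDegLe F d ∧
        A.card = d + t ∧
        ∀ B' : Finset (ZMod p), B' ⊆ A →
          ((rsum A B' F).card : ℤ) ≤ 2 * (A.card : ℤ) - 2 * (d : ℤ) - 2 := by
  have key : ∀ β : ℝ, 0 < β → β < 1 → ∀ t : ℕ, 4 ≤ t → ∃ P₀ : ℕ, ∀ p : ℕ, p.Prime → P₀ ≤ p →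
      ∃ (A : Finset (ZMod p)) (F : Finset (ZMod p × ZMod p)) (d : ℕ),
        t ≤ A.card ∧ (A.card : ℝ) < (1 - β) * (p : ℝ) / 2 ∧ F ⊆ A ×ˢ A ∧ MaxDegLe F d ∧
        A.card = d + t ∧
        ∀ B' : Finset (ZMod p), B' ⊆ A →
          ((rsum A B' F).card : ℤ) ≤ 2 * (A.card : ℤ) - 2 * (d : ℤ) - 2 := by
    intro β hβ0 hβ1 t ht
    obtain ⟨P₀, hP⟩ := Pool.Agent.Results.MP_0e87b2_co.FixedCodegree.examples_one β hβ0 hβ1 t
      (by omega) t
    refine ⟨P₀, fun p hp hpP => ?_⟩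
    obtain ⟨A, F, d, h1, h2, h3, h4, h5, h6⟩ := hP p hp hpP
    refine ⟨A, F, d, h1, h2, h3, h4, h5, fun B' hB' => ?_⟩
    have h7 : (rsum A B' F).card ≤ 2 * ((t + 1) / 2) + 1 := h6 B' hB'
    omega
  have key2 : ∀ β : ℝ, 0 < β → β < 1 → ¬ StarOne β := by
    rintro β hβ0 hβ1 ⟨c, hc⟩
    obtain ⟨P₀, hP⟩ := key β hβ0 hβ1 4 le_rfl
    obtain ⟨p, hp1, hp⟩ := Nat.exists_infinite_primes P₀
    obtain ⟨A, F, d, h1, h2, h3, h4, h5, h6⟩ := hP p hp hp1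
    obtain ⟨B', hB', -, h8⟩ := hc p hp A F d (by omega) h2 h3 h4
    have := h6 B' hB'
    omega
  exact ⟨fun h => key2 (1 / 2) (by norm_num) (by norm_num) (h (1 / 2) (by norm_num)), key2, key⟩

end Pool.Agent.Results.MP_329cea_co.AllSizesFail
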